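import Pool.Agent.Y489.GE.Stm

/-!
# Reflecting minimal geodesics between fixed sets of isometric involutions
-/

set_option autoImplicit false

open Set Topology

namespace Pool.Agent.V11203.GE

open Pool.Agent.Y489.GE

variable {X : Type} [MetricSpace X]

/-- a minimal geodesic which starts at a nearest point of (a relatively open part of) the fixed set
of an isometric involution is prolonged to a locally minimal curve by its mirror image -/
lemma reflect_dist {r δ D : ℝ} (hX : GeodSpace X) (hU : UniqGeod X r)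
    (σ : X ≃ᵢ X) (hσ : ∀ x, σ (σ x) = x) {A : Set X}
    (hA : ∀ x ∈ A, ∀ y, σ y = y → dist x y < δ → y ∈ A)
    {p q : X} (hp : p ∈ A) (hpσ : σ p = p) (hD : ∀ a ∈ A, D ≤ dist a q) (c : ℝ → X)
    (hc0 : c 0 = p) (hcD : c D = q)
    (hc : ∀ s ∈ Icc (0 : ℝ) D, ∀ t ∈ Icc (0 : ℝ) D, dist (c s) (c t) = |s - t|)
    {s t : ℝ} (hs : s ∈ Icc (0 : ℝ) D) (ht : t ∈ Icc (0 : ℝ) D)
    (hsr : 2 * s < r) (htr : 2 * t < r) (hsδ : 2 * s < δ) (htδ : 2 * t < δ) :
    dist (c s) (σ (c t)) = s + t := by
  have hD0 : 0 ≤ D := hs.1.trans hs.2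
  -- distance to the start
  have hst : ∀ u ∈ Icc (0 : ℝ) D, dist p (c u) = u := by
    intro u hu
    have := hc 0 ⟨le_refl _, hD0⟩ u hu
    rw [hc0] at this
    rw [this, zero_sub, abs_neg, abs_of_nonneg hu.1]
  have hen : ∀ u ∈ Icc (0 : ℝ) D, dist (c u) q = D - u := by
    intro u hu
    have := hc u hu D ⟨hD0, le_refl _⟩
    rw [hcD] at this
    rw [this, abs_sub_comm, abs_of_nonneg (by linarith [hu.2])]
  -- the diagonal case
  have diag : ∀ u ∈ Icc (0 : ℝ) D, 2 * u < r → 2 * u < δ → 2 * u ≤ dist (c u) (σ (c u)) := by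
    intro u hu hur huδ
    set x := c u with hx
    set y := σ x with hy
    have hpx : dist p x = u := hst u hu
    have hpy : dist p y = u := by
      calc dist p y = dist (σ p) (σ x) := by rw [hpσ]
        _ = dist p x := σ.dist_eq _ _
        _ = u := hpx
    have hxy : dist x y ≤ 2 * u := by
      calc dist x y ≤ dist x p + dist p y := dist_triangle _ _ _
        _ = 2 * u := by rw [dist_comm, hpx, hpy]; ring
    obtain ⟨e, he0, he1, he⟩ := hX x y
    set z := e (1 / 2) with hz
    have h0 : (0 : ℝ) ∈ Icc (0 : ℝ) 1 := ⟨le_refl _, zero_le_one⟩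
    have h1 : (1 : ℝ) ∈ Icc (0 : ℝ) 1 := ⟨zero_le_one, le_refl _⟩
    have h2 : (1 / 2 : ℝ) ∈ Icc (0 : ℝ) 1 := ⟨by norm_num, by norm_num⟩
    have hxz : dist x z = dist x y / 2 := by
      have := he 0 h0 (1 / 2) h2
      rw [he0] at this
      rw [this]
      rw [show |(0 : ℝ) - 1 / 2| = 1 / 2 by rw [zero_sub, abs_neg, abs_of_pos]; norm_num]
      ring
    have hzy : dist z y = dist x y / 2 := by
      have := he (1 / 2) h2 1 h1
      rw [he1] at this
      rw [this]
      rw [show |(1 / 2 : ℝ) - 1| = 1 / 2 by rw [abs_sub_comm, abs_of_pos] <;> norm_num]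
      ring
    have hxz' : dist x (σ z) = dist x y / 2 := by
      calc dist x (σ z) = dist (σ y) (σ z) := by rw [hy, hσ]
        _ = dist y z := σ.dist_eq _ _
        _ = dist x y / 2 := by rw [dist_comm, hzy]
    have hzy' : dist (σ z) y = dist x y / 2 := by
      calc dist (σ z) y = dist (σ z) (σ x) := by rw [hy]
        _ = dist z x := σ.dist_eq _ _
        _ = dist x y / 2 := by rw [dist_comm, hxz]
    have hzz : z = σ z := hU x y z (σ z) (by linarith) (by rw [hxz, hzy]; ring)
      (by rw [hxz', hzy']; ring) (by rw [hxz, hxz'])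
    have hzA : z ∈ A := by
      refine hA p hp z hzz.symm ?_
      calc dist p z ≤ dist p x + dist x z := dist_triangle _ _ _
        _ ≤ u + u := by rw [hpx, hxz]; linarith
        _ < δ := by linarith
    have := hD z hzA
    have h3 : dist z q ≤ dist z x + dist x q := dist_triangle _ _ _
    rw [dist_comm z x, hxz, hen u hu] at h3
    linarith
  have hup : dist (c s) (σ (c t)) ≤ s + t := by
    calc dist (c s) (σ (c t)) ≤ dist (c s) p + dist p (σ (c t)) := dist_triangle _ _ _
      _ = dist p (c s) + dist (σ p) (σ (c t)) := by rw [dist_comm, hpσ]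
      _ = s + t := by rw [hst s hs, σ.dist_eq, hst t ht]
  refine le_antisymm hup ?_
  rcases le_total s t with h | h
  · have h1 := diag t ht htr htδ
    have h2 : dist (c t) (σ (c t)) ≤ dist (c t) (c s) + dist (c s) (σ (c t)) :=
      dist_triangle _ _ _
    rw [hc t ht s hs, abs_of_nonneg (by linarith : (0 : ℝ) ≤ t - s)] at h2
    linarith
  · have h1 := diag s hs hsr hsδ
    have h2 : dist (c s) (σ (c s)) ≤ dist (c s) (σ (c t)) + dist (σ (c t)) (σ (c s)) :=
      dist_triangle _ _ _
    rw [σ.dist_eq, hc t ht s hs, abs_sub_comm, abs_of_nonneg (by linarith : (0 : ℝ) ≤ s - t)] at h2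
    linarith

/-- the union of the mirror images of a minimal geodesic between the fixed sets of two isometric
involutions -/
theorem periodic_of_involutions {r δ D : ℝ} (hr : 0 < r) (hX : GeodSpace X) (hU : UniqGeod X r)
    (hδ : 0 < δ) (hD0 : 0 < D)
    (σ τ : X ≃ᵢ X) (hσ : ∀ x, σ (σ x) = x) (hτ : ∀ x, τ (τ x) = x) (m : ℕ) (hm : 0 < m)
    (hm' : (σ * τ) ^ m = 1) {A B : Set X}
    (hA : ∀ x ∈ A, ∀ y, σ y = y → dist x y < δ → y ∈ A)
    (hB : ∀ x ∈ B, ∀ y, τ y = y → dist x y < δ → y ∈ B)
    {p q : X} (hp : p ∈ A) (hpσ : σ p = p) (hq : q ∈ B) (hqτ : τ q = q)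
    (hpq : dist p q = D)
    (hDA : ∀ a ∈ A, D ≤ dist a q) (hDB : ∀ b ∈ B, D ≤ dist p b) : ClosedGeod X (2 * m * D) := by
  obtain ⟨e, he0, he1, he⟩ := hX p q
  rw [hpq] at he
  set c : ℝ → X := fun s => e (s / D) with hcdef
  have hc0 : c 0 = p := by simp [hcdef, he0]
  have hcD : c D = q := by simp [hcdef, hD0.ne', he1]
  have hc : ∀ s ∈ Icc (0 : ℝ) D, ∀ t ∈ Icc (0 : ℝ) D, dist (c s) (c t) = |s - t| := by
    intro s hs t ht
    have h1 : s / D ∈ Icc (0 : ℝ) 1 := ⟨div_nonneg hs.1 hD0.le, (div_le_one hD0).2 hs.2⟩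
    have h2 : t / D ∈ Icc (0 : ℝ) 1 := ⟨div_nonneg ht.1 hD0.le, (div_le_one hD0).2 ht.2⟩
    have := he _ h1 _ h2
    simp only [hcdef]
    rw [this, ← sub_div, abs_div, abs_of_pos hD0, div_mul_cancel₀ _ hD0.ne']
  -- the reversed geodesic
  set c' : ℝ → X := fun s => c (D - s) with hc'def
  have hc'0 : c' 0 = q := by simp [hc'def, hcD]
  have hc'D : c' D = p := by simp [hc'def, hc0]
  have hc' : ∀ s ∈ Icc (0 : ℝ) D, ∀ t ∈ Icc (0 : ℝ) D, dist (c' s) (c' t) = |s - t| := by
    intro s hs t ht
    have := hc (D - s) ⟨by linarith [hs.2], by linarith [hs.1]⟩ (D - t)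
      ⟨by linarith [ht.2], by linarith [ht.1]⟩
    simp only [hc'def]
    rw [this, show D - s - (D - t) = -(s - t) by ring, abs_neg]
  set ε : ℝ := min D (min (r / 4) (δ / 4)) with hε
  have hε0 : 0 < ε := lt_min hD0 (lt_min (by linarith) (by linarith))
  have hεD : ε ≤ D := min_le_left _ _
  have hεr : ε ≤ r / 4 := (min_le_right _ _).trans (min_le_left _ _)
  have hεδ : ε ≤ δ / 4 := (min_le_right _ _).trans (min_le_right _ _)
  -- the two reflections
  have R1 : ∀ s t : ℝ, 0 ≤ s → 0 ≤ t → s ≤ ε → t ≤ ε → dist (c s) (σ (c t)) = s + t := by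
    intro s t hs ht hs' ht'
    exact reflect_dist hX hU σ hσ hA hp hpσ hDA c hc0 hcD hc ⟨hs, hs'.trans hεD⟩
      ⟨ht, ht'.trans hεD⟩ (by linarith) (by linarith) (by linarith) (by linarith)
  have R2 : ∀ s t : ℝ, 0 ≤ s → 0 ≤ t → s ≤ ε → t ≤ ε → dist (c' s) (τ (c' t)) = s + t := by
    intro s t hs ht hs' ht'
    exact reflect_dist hX hU τ hτ hB hq hqτ (fun b hb => by rw [dist_comm]; exact hDB b hb) c'
      hc'0 hc'D hc' ⟨hs, hs'.trans hεD⟩
      ⟨ht, ht'.trans hεD⟩ (by linarith) (by linarith) (by linarith) (by linarith)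
  -- one period of the broken curve
  set h : ℝ → X := fun u => if u ≤ D then c u else τ (c (2 * D - u)) with hh
  set g : X ≃ᵢ X := τ * σ with hg
  have hℓ : (0 : ℝ) < 2 * D := by linarith
  set γ : ℝ → X := fun t => (g ^ ⌊t / (2 * D)⌋) (h (t - 2 * D * ⌊t / (2 * D)⌋)) with hγ
  have htr : ∀ (t : ℝ) (j : ℤ), γ (t + 2 * D * j) = (g ^ j) (γ t) := by
    intro t j
    have e1 : (t + 2 * D * j) / (2 * D) = t / (2 * D) + j := by field_simp
    simp only [hγ]
    rw [e1, Int.floor_add_intCast]
    push_cast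
    rw [show t + 2 * D * (j : ℝ) - 2 * D * ((⌊t / (2 * D)⌋ : ℝ) + j) =
      t - 2 * D * (⌊t / (2 * D)⌋ : ℝ) by ring, add_comm, zpow_add]
    rfl
  have hgm : g ^ m = 1 := by
    have h1 : g = σ⁻¹ * (σ * τ) * σ := by
      rw [hg]
      ext x
      simp [IsometryEquiv.mul_apply]
    have hconj : ∀ k : ℕ, g ^ k = σ⁻¹ * (σ * τ) ^ k * σ := by
      intro k
      induction k with
      | zero => simp
      | succ k ih => rw [pow_succ, ih, pow_succ, h1]; group
    rw [hconj, hm']
    simp
  have hper : ∀ t, γ (t + 2 * m * D) = γ t := by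
    intro t
    have := htr t m
    rw [show (2 : ℝ) * D * ((m : ℤ) : ℝ) = 2 * m * D by push_cast; ring] at this
    rw [this, zpow_natCast, hgm]
    rfl
  have hfl : ∀ t, 0 ≤ t → t < 2 * D → γ t = h t := by
    intro t h0 h1
    have : ⌊t / (2 * D)⌋ = 0 := by
      rw [Int.floor_eq_iff]
      push_cast
      exact ⟨div_nonneg h0 hℓ.le, by rw [zero_add]; exact (div_lt_one hℓ).2 h1⟩
    simp only [hγ]
    rw [this]
    simp
  -- the local minimality for pairs which start in the basic period
  have loc0 : ∀ s t : ℝ, 0 ≤ s → s < 2 * D → s ≤ t → t ≤ s + ε → dist (γ s) (γ t) = t - s := by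
    intro s t hs0 hs1 hst hte
    rw [hfl s hs0 hs1]
    rcases lt_or_ge t (2 * D) with ht | ht
    · rw [hfl t (hs0.trans hst) ht]
      simp only [hh]
      rcases le_or_gt s D with hsD | hsD
      · rcases le_or_gt t D with htD | htD
        · rw [if_pos hsD, if_pos htD, hc s ⟨hs0, hsD⟩ t ⟨hs0.trans hst, htD⟩, abs_sub_comm,
            abs_of_nonneg (by linarith)]
        · rw [if_pos hsD, if_neg (not_le.2 htD)]
          have := R2 (D - s) (t - D) (by linarith) (by linarith) (by linarith) (by linarith)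
          simp only [hc'def] at this
          rw [show D - (D - s) = s by ring, show D - (t - D) = 2 * D - t by ring] at this
          rw [this]
          ring
      · have htD : D < t := lt_of_lt_of_le hsD hst
        rw [if_neg (not_le.2 hsD), if_neg (not_le.2 htD), τ.dist_eq,
          hc _ ⟨by linarith, by linarith⟩ _ ⟨by linarith, by linarith⟩]
        rw [show 2 * D - s - (2 * D - t) = t - s by ring, abs_of_nonneg (by linarith)]
    · have hu0 : 0 ≤ t - 2 * D := by linarith
      have hu1 : t - 2 * D < 2 * D := by linarith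
      have hut : γ t = g (h (t - 2 * D)) := by
        have := htr (t - 2 * D) 1
        rw [show t - 2 * D + 2 * D * ((1 : ℤ) : ℝ) = t by push_cast; ring, zpow_one,
          hfl _ hu0 hu1] at this
        exact this
      rw [hut]
      simp only [hh]
      rw [if_pos (by linarith : t - 2 * D ≤ D)]
      rcases le_or_gt s D with hsD | hsD
      · -- then `s = D`, `t = 2 D`
        have e1 : s = D := by linarith
        have e2 : t = 2 * D := by linarith
        rw [if_pos hsD]
        subst e2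
        rw [e1]
        rw [sub_self, hcD, hc0]
        have : g p = τ p := by
          simp [hg, IsometryEquiv.mul_apply, hpσ]
        rw [this]
        calc dist q (τ p) = dist (τ q) (τ p) := by rw [hqτ]
          _ = dist p q := by rw [τ.dist_eq, dist_comm]
          _ = 2 * D - D := by rw [hpq]; ring
      · rw [if_neg (not_le.2 hsD)]
        have e3 : g (c (t - 2 * D)) = τ (σ (c (t - 2 * D))) := by
          simp [hg, IsometryEquiv.mul_apply]
        rw [e3, τ.dist_eq, R1 _ _ (by linarith) (by linarith) (by linarith) (by linarith)]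
        ring
  refine ⟨γ, 2 * m * D, by positivity, le_refl _, hper, ε, hε0, ?_⟩
  have loc : ∀ s t : ℝ, s ≤ t → t ≤ s + ε → dist (γ s) (γ t) = t - s := by
    intro s t hst hte
    set j : ℤ := ⌊s / (2 * D)⌋ with hj
    have hj1 : (j : ℝ) ≤ s / (2 * D) := Int.floor_le _
    have hj2 : s / (2 * D) < j + 1 := Int.lt_floor_add_one _
    rw [le_div_iff₀ hℓ] at hj1
    rw [div_lt_iff₀ hℓ] at hj2
    have h1 := htr (s - 2 * D * j) j
    have h2 := htr (t - 2 * D * j) j
    rw [sub_add_cancel] at h1 h2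
    rw [h1, h2, (g ^ j).dist_eq, loc0 _ _ (by linarith) (by linarith) (by linarith)
      (by linarith)]
    ring
  intro s t hst
  rcases le_total s t with h1 | h1
  · rw [abs_sub_comm, abs_of_nonneg (by linarith)] at hst
    rw [loc s t h1 (by linarith), abs_sub_comm, abs_of_nonneg (by linarith)]
  · rw [abs_of_nonneg (by linarith)] at hst
    rw [dist_comm, loc t s h1 (by linarith), abs_of_nonneg (by linarith)]

end Pool.Agent.V11203.GE
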